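import Pool.Agent.L5helper98.ID.Defs

/-!
# The integral over one period
-/

set_option autoImplicit false

open MeasureTheory Set

namespace Pool.Agent.L5helper3.ID

open Pool.Agent.L5helper98.ID

lemma cont_exp (c : ℝ) : Continuous fun u : ℝ => Real.exp (c * Real.cos u) := by
  fun_prop

lemma shift (c x : ℝ) : ∫ y in (-Real.pi)..Real.pi, Real.exp (c * Real.cos (x - y)) =
    ∫ u in (-Real.pi)..Real.pi, Real.exp (c * Real.cos u) := by
  have hp : Function.Periodic (fun u => Real.exp (c * Real.cos u)) (2 * Real.pi) := by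
    intro u
    simp
  have h1 := intervalIntegral.integral_comp_sub_left (a := -Real.pi) (b := Real.pi)
    (fun u => Real.exp (c * Real.cos u)) x
  have h2 := hp.intervalIntegral_add_eq (x - Real.pi) (-Real.pi)
  rw [show x - Real.pi + 2 * Real.pi = x - -Real.pi by ring,
    show -Real.pi + 2 * Real.pi = Real.pi by ring] at h2
  rw [h1, h2]

lemma neg_eq (c : ℝ) : ∫ u in (-Real.pi)..Real.pi, Real.exp (-(c * Real.cos u)) =
    ∫ u in (-Real.pi)..Real.pi, Real.exp (c * Real.cos u) := by
  have h1 := shift c Real.pi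
  rw [← h1]
  congr 1
  funext u
  rw [Real.cos_pi_sub]
  ring_nf

lemma cosh_int (c : ℝ) : ∫ u in (-Real.pi)..Real.pi, Real.exp (c * Real.cos u) =
    ∫ u in (-Real.pi)..Real.pi, Real.cosh (c * Real.cos u) := by
  have h1 : ∫ u in (-Real.pi)..Real.pi, Real.cosh (c * Real.cos u) =
      ((∫ u in (-Real.pi)..Real.pi, Real.exp (c * Real.cos u)) +
        ∫ u in (-Real.pi)..Real.pi, Real.exp (-(c * Real.cos u))) / 2 := by
    rw [← intervalIntegral.integral_add, ← intervalIntegral.integral_div]
    · congr 1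
      funext u
      rw [Real.cosh_eq]
    · exact (cont_exp c).intervalIntegrable _ _
    · exact (by fun_prop : Continuous fun u : ℝ => Real.exp (-(c * Real.cos u))).intervalIntegrable
        _ _
  rw [h1, neg_eq]
  ring

lemma mono {c κ : ℝ} (h : |c| ≤ κ) : ∫ u in (-Real.pi)..Real.pi, Real.exp (c * Real.cos u) ≤
    ∫ u in (-Real.pi)..Real.pi, Real.exp (κ * Real.cos u) := by
  rw [cosh_int c, cosh_int κ]
  apply intervalIntegral.integral_mono_on (by linarith [Real.pi_pos])
  · exact (by fun_prop : Continuous fun u : ℝ => Real.cosh (c * Real.cos u)).intervalIntegrable _ _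
  · exact (by fun_prop : Continuous fun u : ℝ => Real.cosh (κ * Real.cos u)).intervalIntegrable _ _
  · intro u _
    rw [Real.cosh_le_cosh, abs_mul, abs_mul]
    exact mul_le_mul_of_nonneg_right (le_trans h (le_abs_self κ)) (abs_nonneg _)

lemma ioo_eq (f : ℝ → ℝ) : ∫ y in Ioo (-Real.pi) Real.pi, f y = ∫ y in (-Real.pi)..Real.pi, f y := by
  rw [intervalIntegral.integral_of_le (by linarith [Real.pi_pos]), integral_Ioc_eq_integral_Ioo]

theorem PER_holds : St_PER := by
  intro c κ h x
  have hc : Continuous fun y : ℝ => Real.exp (c * Real.cos (x - y)) := by fun_prop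
  have hi : Integrable (fun y : ℝ => Real.exp (c * Real.cos (x - y)))
      (volume.restrict (Ioo (-Real.pi) Real.pi)) :=
    (hc.integrableOn_Icc (a := -Real.pi) (b := Real.pi)).mono_set Ioo_subset_Icc_self
  have h1 : ∫⁻ y in D, ee (fun t => c * Real.cos t) x y =
      ENNReal.ofReal (∫ y in Ioo (-Real.pi) Real.pi, Real.exp (c * Real.cos (x - y))) := by
    rw [ofReal_integral_eq_lintegral_ofReal hi (Filter.Eventually.of_forall fun _ =>
      (Real.exp_pos _).le)]
    rfl
  rw [h1]
  apply ENNReal.ofReal_le_ofReal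
  unfold I
  rw [ioo_eq, ioo_eq, shift]
  exact mono h

end Pool.Agent.L5helper3.ID
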